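import Mathlib
import Pool.Agent.Y187.WQ.Stm
import Pool.Agent.H272R2.BP.Pinf

/-!
In a factor without finite projections every nonzero projection contains a copy of the unit.
-/

set_option autoImplicit false

open scoped ComplexOrder InnerProductSpace
open Finset Filter

noncomputable section

namespace Pool.Agent.Y671.WQ

open H759R2.Kad Pool.Agent.Y187.WQ

section alg

variable {A : Type*} [Ring A] [StarRing A]

theorem pow_absorb {d s : A} (hs : d * s = s) (x : A) (hx : d * x = x) (k : ℕ) :
    d * (s ^ k * x) = s ^ k * x := by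
  cases k with
  | zero => simpa using hx
  | succ k => rw [pow_succ', mul_assoc, ← mul_assoc d, hs]

theorem cancel {d s : A} (h : star s * s = d) (hs : d * s = s) (x : A) (hx : d * x = x)
    (i : ℕ) : star (s ^ i) * (s ^ i * x) = x := by
  induction i with
  | zero => simp
  | succ i ih =>
    have h1 : star (s ^ (i + 1)) = star (s ^ i) * star s := by rw [pow_succ', star_mul]
    have h2 : s ^ (i + 1) * x = s * (s ^ i * x) := by rw [pow_succ', mul_assoc]
    rw [h1, h2]
    calc star (s ^ i) * star s * (s * (s ^ i * x))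
        = star (s ^ i) * ((star s * s) * (s ^ i * x)) := by simp only [mul_assoc]
      _ = star (s ^ i) * (s ^ i * x) := by rw [h, pow_absorb hs x hx]
      _ = x := ih

theorem tuple {d s1 s2 : A} (h11 : star s1 * s1 = d) (h22 : star s2 * s2 = d)
    (h12 : star s1 * s2 = 0) (h1 : d * s1 = s1) (h2 : d * s2 = s2) (i j : ℕ) :
    star (s1 ^ i * s2) * (s1 ^ j * s2) = if i = j then d else 0 := by
  have h21 : star s2 * s1 = 0 := by
    have := congrArg star h12
    simpa using this
  have hlt : ∀ i k : ℕ, star (s1 ^ i * s2) * (s1 ^ (i + (k + 1)) * s2) = 0 := by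
    intro i k
    rw [pow_add, star_mul, mul_assoc (star s2), mul_assoc (s1 ^ i),
      cancel h11 h1 _ (pow_absorb h1 s2 h2 (k + 1)), pow_succ', mul_assoc s1,
      ← mul_assoc (star s2), h21, zero_mul]
  rcases lt_trichotomy i j with h | h | h
  · obtain ⟨k, rfl⟩ := Nat.exists_eq_add_of_lt h
    rw [if_neg (by omega), add_assoc]
    exact hlt i k
  · subst h
    rw [if_pos rfl, star_mul, mul_assoc (star s2), cancel h11 h1 _ h2, h22]
  · obtain ⟨k, rfl⟩ := Nat.exists_eq_add_of_lt h
    rw [if_neg (by omega), add_assoc]
    have := congrArg star (hlt j k)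
    simpa [mul_assoc] using this

end alg

theorem t_inf3 : W_fam → W_inf3 := by
  intro hfam H _ _ _ _ N hN hfin e he hep hne
  set e' : N.toStarSubalgebra := ⟨e, he⟩ with he'
  have hP : Prj e' := ⟨Subtype.ext hep.1, Subtype.ext hep.2⟩
  have hnf : ¬ Fnt e' := fun hf => hne (congrArg Subtype.val (hfin e' hP hf))
  obtain ⟨d, a, b, hd, hd0, hed, haa, hbb, hab, hda, hdb⟩ :=
    prove6_pinf prove6_seq N.toStarSubalgebra (H68R2.BP.H272Pinf.wst_all H N) e' hP hnf
  have hs := tuple haa hbb hab hda hdb
  set s : ℕ → N.toStarSubalgebra := fun i => a ^ i * b with hsdef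
  have hs' : ∀ i j, star (s i) * s j = if i = j then d else 0 := hs
  have hds : ∀ i, d * s i = s i := fun i => pow_absorb hda b hdb i
  have hes : ∀ i, e' * s i = s i := fun i => by rw [← hds i, ← mul_assoc, hed]
  have hdpr : IsPr (d : H →L[ℂ] H) := ⟨congrArg Subtype.val hd.1, congrArg Subtype.val hd.2⟩
  obtain ⟨w, hw1, hw2, hw3⟩ := hfam H N hN (d : H →L[ℂ] H) d.2 hdpr
    (fun h => hd0 (Subtype.ext h))
  set w' : ℕ → N.toStarSubalgebra := fun i => ⟨w i, (hw1 i).1⟩ with hw'
  have pw : ∀ i, w' i * star (w' i) * w' i = w' i := fun i => Subtype.ext (hw1 i).2.1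
  have wd : ∀ i, w' i * d = w' i := fun i => Subtype.ext (hw1 i).2.2
  have ww : ∀ i j, i ≠ j → star (w' i) * w' j = 0 := fun i j h => Subtype.ext (hw2 i j h)
  have pws : ∀ i, star (w' i) * (w' i * star (w' i)) = star (w' i) := by
    intro i
    have := congrArg star (pw i)
    simpa [mul_assoc] using this
  set v : ℕ → N.toStarSubalgebra := fun i => s i * star (w' i) with hv
  have vv1 : ∀ i, star (v i) * v i = w' i * star (w' i) := by
    intro i
    calc star (v i) * v i = w' i * (star (s i) * s i) * star (w' i) := by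
          simp only [hv, star_mul, star_star, mul_assoc]
      _ = w' i * star (w' i) := by rw [hs', if_pos rfl, wd]
  have vv2 : ∀ i j, i ≠ j → star (v i) * v j = 0 := by
    intro i j h
    calc star (v i) * v j = w' i * (star (s i) * s j) * star (w' j) := by
          simp only [hv, star_mul, star_star, mul_assoc]
      _ = 0 := by rw [hs', if_neg h, mul_zero, zero_mul]
  have vv3 : ∀ i j, i ≠ j → v i * star (v j) = 0 := by
    intro i j h
    calc v i * star (v j) = s i * (star (w' i) * w' j) * star (s j) := by
          simp only [hv, star_mul, star_star, mul_assoc]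
      _ = 0 := by rw [ww i j h, mul_zero, zero_mul]
  have vpi : ∀ i, v i * star (v i) * v i = v i := by
    intro i
    rw [mul_assoc, vv1]
    show s i * star (w' i) * (w' i * star (w' i)) = s i * star (w' i)
    rw [mul_assoc, pws]
  obtain ⟨V, -, hV1, hV2, hV3⟩ := prove6_seq N.toStarSubalgebra (H68R2.BP.H272Pinf.wst_all H N)
    v vpi (fun i j h => ⟨vv2 i j h, vv3 i j h⟩)
  have hVs : ∀ i, star V * v i = w' i * star (w' i) := by
    intro i
    have h1 := congrArg star (hV2 i)
    rw [star_mul, star_mul, star_star] at h1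
    calc star V * v i = star V * (v i * star (v i) * v i) := by rw [vpi]
      _ = (star V * (v i * star (v i))) * v i := by simp only [mul_assoc]
      _ = star (v i) * v i := by rw [h1]
      _ = w' i * star (w' i) := vv1 i
  have hVw : ∀ i, star V * V * w' i = w' i := by
    intro i
    calc star V * V * w' i = star V * V * (w' i * star (w' i) * w' i) := by rw [pw]
      _ = star V * (V * (w' i * star (w' i))) * w' i := by simp only [mul_assoc]
      _ = star V * v i * w' i := by rw [← vv1, hV1]
      _ = w' i := by rw [hVs, pw]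
  have hVV : star V * V = 1 := by
    have h := hw3 ((star V * V - 1 : N.toStarSubalgebra) : H →L[ℂ] H) (fun i => by
      have h1 : (star V * V - 1) * w' i = 0 := by rw [sub_mul, hVw, one_mul, sub_self]
      exact congrArg Subtype.val h1)
    exact sub_eq_zero.1 (Subtype.ext h)
  have heV : e' * V = V := by
    have h := hV3 (1 - e') 1 (fun i => by
      show (1 - e') * (s i * star (w' i)) * 1 = 0
      rw [mul_one, ← mul_assoc, sub_mul, one_mul, hes, sub_self, zero_mul])
    rw [mul_one, sub_mul, one_mul] at h
    exact (sub_eq_zero.1 h).symm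
  exact ⟨(V : H →L[ℂ] H), V.2, congrArg Subtype.val hVV, congrArg Subtype.val heV⟩

end Pool.Agent.Y671.WQ
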